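import Pool.Agent.Q283.FT.Stm3

set_option autoImplicit false

/-! Project FT (helper283): points of order two, quadratic characters, the group law and the Galois action. -/

namespace Pool.Agent.Q224.FT

open WeierstrassCurve
open Pool.Agent.TH841.SH
open Pool.Agent.TH841.SH.D (Coch Pt act Gal IsCoc IsCob LocTriv)
open Pool.Agent.Q7.LK (IsPow)
open Pool.Agent.Q283.FT

section pts

variable {F : Type} [Field F] {e : Fin 3 → F} {L : Type} [Field L] [Algebra F L]

theorem isR (hr : Rt e) : IsR ((crv e).baseChange L) (algebraMap F L (e 0)) (algebraMap F L (e 1))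
    (algebraMap F L (e 2)) where
  h1 := map_zero _
  h2 := by
    show algebraMap F L 0 = _
    rw [← map_add, ← map_add, hr.sum, map_zero, neg_zero]
  h3 := map_zero _
  h4 := by
    show algebraMap F L (e 0 * e 1 + e 0 * e 2 + e 1 * e 2) = _
    simp only [map_add, map_mul]
  h6 := by
    show algebraMap F L (-(e 0 * e 1 * e 2)) = _
    simp only [map_neg, map_mul]

theorem isRj (hr : Rt e) (j : Fin 3) : IsR ((crv e).baseChange L) (algebraMap F L (e j))
    (algebraMap F L (e (j + 1))) (algebraMap F L (e (j + 2))) := by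
  fin_cases j
  · exact isR hr
  · exact (isR hr).rot
  · exact (isR hr).rot.rot

theorem am_ne (hr : Rt e) {j k : Fin 3} (h : j ≠ k) : algebraMap F L (e j) ≠ algebraMap F L (e k) :=
  fun h1 => h (hr.inj ((algebraMap F L).injective h1))

theorem j1 (j : Fin 3) : j ≠ j + 1 := by revert j; decide
theorem j2 (j : Fin 3) : j ≠ j + 2 := by revert j; decide
theorem j12 (j : Fin 3) : j + 1 ≠ j + 2 := by revert j; decide

variable (e L) in
/-- the point `T` pairs trivially with the `j`-th point of order two -/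
def PX (j : Fin 3) (T : Pt (crv e) L) : Prop := IsX ((crv e).baseChange L) (algebraMap F L (e j)) T

theorem nonsT (hr : Rt e) (h2 : (2 : L) ≠ 0) (l : Fin 3) :
    ((crv e).baseChange L).toAffine.Nonsingular (algebraMap F L (e l)) 0 :=
  (isRj hr l).nons h2 (am_ne hr (j1 l)) (am_ne hr (j2 l)) (am_ne hr (j12 l)) (by ring)

/-- the points of order two -/
def pT (hr : Rt e) (h2 : (2 : L) ≠ 0) (l : Fin 3) : Pt (crv e) L :=
  Affine.Point.some (algebraMap F L (e l)) 0 (nonsT hr h2 l)

theorem pT_add (hr : Rt e) (h2 : (2 : L) ≠ 0) (l : Fin 3) : pT hr h2 l + pT hr h2 l = 0 := by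
  letI := Classical.decEq L
  exact ((isRj hr l).add_self h2 (nonsT hr h2 l)).2 rfl

theorem tors (hr : Rt e) (h2 : (2 : L) ≠ 0) {T : Pt (crv e) L} (hT : T + T = 0) :
    T = 0 ∨ ∃ l, T = pT hr h2 l := by
  letI := Classical.decEq L
  rcases (isR hr).tors h2 hT with h | ⟨hn, h⟩ | ⟨hn, h⟩ | ⟨hn, h⟩
  · exact Or.inl h
  · exact Or.inr ⟨0, h⟩
  · exact Or.inr ⟨1, h⟩
  · exact Or.inr ⟨2, h⟩

theorem px_zero (j : Fin 3) : PX e L j 0 := isX_zero _

theorem px_pT (hr : Rt e) (h2 : (2 : L) ≠ 0) (j l : Fin 3) : PX e L j (pT hr h2 l) ↔ j = l := by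
  constructor
  · intro h
    by_contra hne
    exact not_isX _ (am_ne hr (Ne.symm hne)) h
  · rintro rfl
    exact isX_some _

theorem px_add (hr : Rt e) (h2 : (2 : L) ≠ 0) (j : Fin 3) {T T' : Pt (crv e) L} (hT : T + T = 0)
    (hT' : T' + T' = 0) : PX e L j (T + T') ↔ (PX e L j T ↔ PX e L j T') := by
  letI := Classical.decEq L
  exact (isRj hr j).isX_add h2 (am_ne hr (j1 j)) (am_ne hr (j2 j)) (am_ne hr (j12 j)) hT hT'

theorem px_ext (hr : Rt e) (h2 : (2 : L) ≠ 0) {T T' : Pt (crv e) L} (hT : T + T = 0)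
    (hT' : T' + T' = 0) (h0 : PX e L 0 T ↔ PX e L 0 T') (h1 : PX e L 1 T ↔ PX e L 1 T') : T = T' := by
  letI := Classical.decEq L
  exact (isR hr).ext h2 (am_ne hr (by decide)) (am_ne hr (by decide)) (am_ne hr (by decide)) hT hT' h0 h1

theorem px_prod (hr : Rt e) (h2 : (2 : L) ≠ 0) (j : Fin 3) {T : Pt (crv e) L} (hT : T + T = 0) :
    PX e L j T ↔ (PX e L (j + 1) T ↔ PX e L (j + 2) T) := by
  rcases tors hr h2 hT with rfl | ⟨l, rfl⟩
  · simp only [px_zero]
  · simp only [px_pT]
    clear hT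
    revert j l
    decide

end pts

section gal

variable {F : Type} [Field F]

theorem neg_ne (h2 : (2 : AlgebraicClosure F) ≠ 0) {α : AlgebraicClosure F} (h0 : α ≠ 0) : -α ≠ α := by
  intro h
  have h1 : 2 * α = 0 := by linear_combination -h
  rcases mul_eq_zero.1 h1 with h3 | h3
  · exact h2 h3
  · exact h0 h3

theorem sig {a : F} {α : AlgebraicClosure F} (hα : α ^ 2 = algebraMap F (AlgebraicClosure F) a)
    (σ : Gal F) : σ α = α ∨ σ α = -α := by
  have h3 : (σ α) ^ 2 = α ^ 2 := by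
    rw [← map_pow, hα]
    exact σ.commutes a
  exact sq_eq_sq_iff_eq_or_eq_neg.1 h3

theorem ne_zero_of {a : F} (ha : a ≠ 0) {α : AlgebraicClosure F}
    (hα : α ^ 2 = algebraMap F (AlgebraicClosure F) a) : α ≠ 0 := by
  rintro rfl
  rw [zero_pow two_ne_zero] at hα
  exact ha ((map_eq_zero _).1 hα.symm)

theorem fx_mul (h2 : (2 : AlgebraicClosure F) ≠ 0) {α : AlgebraicClosure F} (h0 : α ≠ 0)
    (hs : ∀ σ : Gal F, σ α = α ∨ σ α = -α) (σ τ : Gal F) :
    (σ * τ) α = α ↔ (σ α = α ↔ τ α = α) := by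
  have hn := neg_ne h2 h0
  rw [AlgEquiv.mul_apply]
  rcases hs σ with h | h <;> rcases hs τ with h' | h' <;> simp [h, h', hn, map_neg]

theorem fx_prod (h2 : (2 : AlgebraicClosure F) ≠ 0) {α β : AlgebraicClosure F} (h0 : α ≠ 0)
    (h1 : β ≠ 0) (hs : ∀ σ : Gal F, σ α = α ∨ σ α = -α) (ht : ∀ σ : Gal F, σ β = β ∨ σ β = -β)
    (σ : Gal F) : σ (α * β) = α * β ↔ (σ α = α ↔ σ β = β) := by
  have hn := neg_ne h2 h0
  have hn' := neg_ne h2 h1
  have hn'' := neg_ne h2 (mul_ne_zero h0 h1)
  rw [map_mul]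
  rcases hs σ with h | h <;> rcases ht σ with h' | h' <;>
    simp only [h, h', hn, hn', hn'', mul_neg, neg_mul, neg_neg, iff_self, iff_false, iff_true, not_true_eq_false]

theorem fx_rat [CharZero F] {z : AlgebraicClosure F} (hz : ∀ σ : Gal F, σ z = z) :
    ∃ s : F, algebraMap F (AlgebraicClosure F) s = z := by
  have h3 : z ∈ Set.range (algebraMap F (AlgebraicClosure F)) := by
    rw [InfiniteGalois.mem_range_algebraMap_iff_fixed]
    exact hz
  exact h3

theorem fx_scal {c : F} (hc : c ≠ 0) (α : AlgebraicClosure F) (σ : Gal F) :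
    σ (algebraMap F (AlgebraicClosure F) c * α) = algebraMap F (AlgebraicClosure F) c * α ↔ σ α = α := by
  have hc' : algebraMap F (AlgebraicClosure F) c ≠ 0 := (map_ne_zero _).2 hc
  rw [map_mul, σ.commutes]
  exact mul_right_inj' hc'

/-- the evaluation is locally constant -/
theorem lc_app (x : AlgebraicClosure F) : IsLocallyConstant (fun σ : Gal F => σ x) := by
  rw [IsLocallyConstant.iff_exists_open]
  intro σ
  have hx : IsIntegral F x := Algebra.IsIntegral.isIntegral x
  have : FiniteDimensional F (IntermediateField.adjoin F {x}) :=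
    IntermediateField.adjoin.finiteDimensional hx
  refine ⟨(fun τ => σ⁻¹ * τ) ⁻¹'
    ((IntermediateField.adjoin F {x}).fixingSubgroup : Set (Gal F)),
    (IntermediateField.fixingSubgroup_isOpen _).preimage (continuous_const_mul _), ?_, ?_⟩
  · show σ⁻¹ * σ ∈ (IntermediateField.adjoin F {x}).fixingSubgroup
    rw [inv_mul_cancel]
    exact one_mem _
  · intro τ hτ
    have h1 : σ⁻¹ * τ ∈ (IntermediateField.adjoin F {x}).fixingSubgroup := hτ
    rw [IntermediateField.mem_fixingSubgroup_iff] at h1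
    have h2 := h1 x (IntermediateField.mem_adjoin_simple_self F x)
    rw [AlgEquiv.mul_apply] at h2
    have h3 := congrArg σ h2
    rw [← AlgEquiv.mul_apply, mul_inv_cancel, AlgEquiv.one_apply] at h3
    exact h3

end gal

section act

variable {F : Type} [Field F] {e : Fin 3 → F}

theorem pt_ext' {W : WeierstrassCurve F} {L : Type} [Field L] [Algebra F L] {x y x' y' : L}
    {h : (W.baseChange L).toAffine.Nonsingular x y}
    {h' : (W.baseChange L).toAffine.Nonsingular x' y'} (hx : x = x') (hy : y = y') :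
    @Eq (Pt W L) (Affine.Point.some x y h) (Affine.Point.some x' y' h') := by
  subst hx hy
  rfl

theorem act_pT (hr : Rt e) {L L' : Type} [Field L] [Algebra F L] [Field L'] [Algebra F L']
    (h2 : (2 : L) ≠ 0) (h2' : (2 : L') ≠ 0) (φ : L →ₐ[F] L') (l : Fin 3) :
    act (crv e) φ (pT hr h2 l) = pT hr h2' l :=
  pt_ext' (φ.commutes _) (map_zero φ)

theorem tors_fix (hr : Rt e) (h2 : (2 : AlgebraicClosure F) ≠ 0) {T : Pt (crv e) (AlgebraicClosure F)}
    (hT : T + T = 0) (σ : Gal F) : act (crv e) σ.toAlgHom T = T := by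
  rcases tors hr h2 hT with rfl | ⟨l, rfl⟩
  · exact map_zero _
  · exact act_pT hr h2 h2 σ.toAlgHom l

end act

end Pool.Agent.Q224.FT
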