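import Pool.Agent.Q224.FT.Bas

set_option autoImplicit false

/-! Project FT (helper283), job KSB: from pairs to cocycles; sums. -/

namespace Pool.Agent.Q224.FT

open NumberField WeierstrassCurve
open Pool.Agent.TH841.SH
open Pool.Agent.TH841.SH.D (Coch Pt act Gal IsCoc IsCob LocTriv)
open Pool.Agent.Q7.LK (IsPow)
open Pool.Agent.Q283.FT

theorem add2 {G : Type} [AddCommGroup G] {x y : G} (hx : x + x = 0) (hy : y + y = 0) :
    x + y + (x + y) = 0 := by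
  rw [add_add_add_comm, hx, hy, add_zero]

section cochain

variable {F : Type} [Field F] {e : Fin 3 → F}

open Classical in
/-- the cochain with given characters -/
noncomputable def fs (hr : Rt e) (h2 : (2 : AlgebraicClosure F) ≠ 0) (α β : AlgebraicClosure F) : Coch (crv e) :=
  fun σ => if σ α = α then (if σ β = β then 0 else pT hr h2 0) else
    (if σ β = β then pT hr h2 1 else pT hr h2 2)

variable (hr : Rt e) (h2 : (2 : AlgebraicClosure F) ≠ 0) (α β : AlgebraicClosure F)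

theorem fs_two (σ : Gal F) : fs hr h2 α β σ + fs hr h2 α β σ = 0 := by
  unfold fs
  split_ifs
  · exact add_zero _
  · exact pT_add _ _ _
  · exact pT_add _ _ _
  · exact pT_add _ _ _

theorem fs_px0 (σ : Gal F) : PX e (AlgebraicClosure F) 0 (fs hr h2 α β σ) ↔ σ α = α := by
  unfold fs
  split_ifs with h1 h3 h3
  · exact iff_of_true (px_zero _) h1
  · exact iff_of_true ((px_pT hr h2 0 0).2 rfl) h1
  · exact iff_of_false (fun h => absurd ((px_pT hr h2 0 1).1 h) (by decide)) h1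
  · exact iff_of_false (fun h => absurd ((px_pT hr h2 0 2).1 h) (by decide)) h1

theorem fs_px1 (σ : Gal F) : PX e (AlgebraicClosure F) 1 (fs hr h2 α β σ) ↔ σ β = β := by
  unfold fs
  split_ifs with h1 h3 h3
  · exact iff_of_true (px_zero _) h3
  · exact iff_of_false (fun h => absurd ((px_pT hr h2 1 0).1 h) (by decide)) h3
  · exact iff_of_true ((px_pT hr h2 1 1).2 rfl) h3
  · exact iff_of_false (fun h => absurd ((px_pT hr h2 1 2).1 h) (by decide)) h3

theorem fs_lc : IsLocallyConstant (fs hr h2 α β) := by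
  classical
  have e1 : fs hr h2 α β = (fun z : AlgebraicClosure F × AlgebraicClosure F =>
      if z.1 = α then (if z.2 = β then (0 : Pt (crv e) (AlgebraicClosure F)) else pT hr h2 0) else
        (if z.2 = β then pT hr h2 1 else pT hr h2 2)) ∘ (fun σ : Gal F => (σ α, σ β)) := by
    funext σ
    unfold fs
    simp only [Function.comp_apply]
  rw [e1]
  exact ((lc_app α).prodMk (lc_app β)).comp _

end cochain

section ks

variable {F : Type} [Field F] [NumberField F] {e : Fin 3 → F}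

theorem ks_fs (hr : Rt e) (h2 : (2 : AlgebraicClosure F) ≠ 0) {a b : F} {α β : AlgebraicClosure F}
    (hα : α ^ 2 = algebraMap F _ a) (hβ : β ^ 2 = algebraMap F _ b) : Ks e a b (fs hr h2 α β) :=
  ⟨fs_two hr h2 α β, α, β, hα, hβ, fun σ => ⟨(fs_px0 hr h2 α β σ).symm, (fs_px1 hr h2 α β σ).symm⟩⟩

theorem ks_coc (hr : Rt e) {a b : F} (ha : a ≠ 0) (hb : b ≠ 0) {f : Coch (crv e)} (hf : Ks e a b f) :
    IsCoc (crv e) f := by
  have h2 : (2 : AlgebraicClosure F) ≠ 0 := two_ne_zero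
  obtain ⟨hf2, α, β, hα, hβ, hσ⟩ := hf
  have hα0 := ne_zero_of ha hα
  have hβ0 := ne_zero_of hb hβ
  refine ⟨?_, fun σ τ => ?_⟩
  · have e1 : f = fs hr h2 α β := by
      funext σ
      exact px_ext hr h2 (hf2 σ) (fs_two hr h2 α β σ) ((hσ σ).1.symm.trans (fs_px0 hr h2 α β σ).symm)
        ((hσ σ).2.symm.trans (fs_px1 hr h2 α β σ).symm)
    rw [e1]
    exact fs_lc hr h2 α β
  · rw [tors_fix hr h2 (hf2 τ) σ]
    refine px_ext hr h2 (hf2 _) (add2 (hf2 σ) (hf2 τ)) ?_ ?_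
    · rw [px_add hr h2 0 (hf2 σ) (hf2 τ)]
      exact (hσ (σ * τ)).1.symm.trans ((fx_mul h2 hα0 (sig hα) σ τ).trans (iff_congr (hσ σ).1 (hσ τ).1))
    · rw [px_add hr h2 1 (hf2 σ) (hf2 τ)]
      exact (hσ (σ * τ)).2.symm.trans ((fx_mul h2 hβ0 (sig hβ) σ τ).trans (iff_congr (hσ σ).2 (hσ τ).2))

theorem ks_add (hr : Rt e) {a b a' b' : F} (ha : a ≠ 0) (hb : b ≠ 0) (ha' : a' ≠ 0) (hb' : b' ≠ 0)
    {f f' : Coch (crv e)} (hf : Ks e a b f) (hf' : Ks e a' b' f') : Ks e (a * a') (b * b') (f + f') := by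
  have h2 : (2 : AlgebraicClosure F) ≠ 0 := two_ne_zero
  obtain ⟨hf2, α, β, hα, hβ, hσ⟩ := hf
  obtain ⟨hf2', α', β', hα', hβ', hσ'⟩ := hf'
  refine ⟨fun σ => add2 (hf2 σ) (hf2' σ), α * α', β * β', ?_, ?_, fun σ => ⟨?_, ?_⟩⟩
  · rw [mul_pow, hα, hα', map_mul]
  · rw [mul_pow, hβ, hβ', map_mul]
  · exact (fx_prod h2 (ne_zero_of ha hα) (ne_zero_of ha' hα') (sig hα) (sig hα') σ).trans
      ((iff_congr (hσ σ).1 (hσ' σ).1).trans (px_add hr h2 0 (hf2 σ) (hf2' σ)).symm)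
  · exact (fx_prod h2 (ne_zero_of hb hβ) (ne_zero_of hb' hβ') (sig hβ) (sig hβ') σ).trans
      ((iff_congr (hσ σ).2 (hσ' σ).2).trans (px_add hr h2 1 (hf2 σ) (hf2' σ)).symm)

theorem sq_of_fx {a a' : F} {α α' : AlgebraicClosure F} (hα : α ^ 2 = algebraMap F _ a)
    (hα' : α' ^ 2 = algebraMap F _ a') (h : ∀ σ : Gal F, σ α = α ↔ σ α' = α') : IsPow 2 (a / a') := by
  have h2 : (2 : AlgebraicClosure F) ≠ 0 := two_ne_zero
  obtain ⟨s, hs⟩ := fx_rat (z := α / α') (by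
    intro σ
    rw [map_div₀]
    rcases sig hα σ with h1 | h1
    · rw [h1, (h σ).1 h1]
    · rcases sig hα' σ with h3 | h3
      · rw [(h σ).2 h3, h3]
      · rw [h1, h3, neg_div_neg_eq])
  refine ⟨s, (algebraMap F (AlgebraicClosure F)).injective ?_⟩
  rw [map_div₀, map_pow, hs, div_pow, hα, hα']

theorem fx_of_sq {a a' : F} (ha : a ≠ 0) (ha' : a' ≠ 0) {α α' : AlgebraicClosure F} (hα : α ^ 2 = algebraMap F _ a)
    (hα' : α' ^ 2 = algebraMap F _ a') (h : IsPow 2 (a / a')) (σ : Gal F) : σ α = α ↔ σ α' = α' := by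
  obtain ⟨s, hs⟩ := h
  have hs0 : s ≠ 0 := by
    rintro rfl
    rw [zero_pow two_ne_zero] at hs
    exact div_ne_zero ha ha' hs
  have h1 : α ^ 2 = (algebraMap F (AlgebraicClosure F) s * α') ^ 2 := by
    rw [hα, mul_pow, hα', ← map_pow, ← map_mul, ← hs, div_mul_cancel₀ _ ha']
  rcases sq_eq_sq_iff_eq_or_eq_neg.1 h1 with h3 | h3
  · rw [h3]
    exact fx_scal hs0 α' σ
  · rw [h3, map_neg, neg_inj]
    exact fx_scal hs0 α' σ

theorem ks_eq (hr : Rt e) {a b a' b' : F} (ha : a ≠ 0) (hb : b ≠ 0) (ha' : a' ≠ 0) (hb' : b' ≠ 0)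
    {f f' : Coch (crv e)} (hf : Ks e a b f) (hf' : Ks e a' b' f') :
    f = f' ↔ IsPow 2 (a / a') ∧ IsPow 2 (b / b') := by
  have h2 : (2 : AlgebraicClosure F) ≠ 0 := two_ne_zero
  obtain ⟨hf2, α, β, hα, hβ, hσ⟩ := hf
  obtain ⟨hf2', α', β', hα', hβ', hσ'⟩ := hf'
  constructor
  · rintro rfl
    exact ⟨sq_of_fx hα hα' fun σ => (hσ σ).1.trans (hσ' σ).1.symm,
      sq_of_fx hβ hβ' fun σ => (hσ σ).2.trans (hσ' σ).2.symm⟩
  · rintro ⟨h1, h3⟩
    funext σ
    exact px_ext hr h2 (hf2 σ) (hf2' σ)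
      ((hσ σ).1.symm.trans ((fx_of_sq ha ha' hα hα' h1 σ).trans (hσ' σ).1))
      ((hσ σ).2.symm.trans ((fx_of_sq hb hb' hβ hβ' h3 σ).trans (hσ' σ).2))

/-- **Job KSB.** -/
theorem ksb : Pool.Agent.Q283.FT.S_KSB := by
  intro F _ _ e hr
  have h2 : (2 : AlgebraicClosure F) ≠ 0 := two_ne_zero
  refine ⟨fun a b _ _ => ?_, fun a b f ha hb hf => ks_coc hr ha hb hf,
    fun a b a' b' f f' ha hb ha' hb' hf hf' => ks_add hr ha hb ha' hb' hf hf',
    fun a b a' b' f f' ha hb ha' hb' hf hf' => ks_eq hr ha hb ha' hb' hf hf'⟩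
  obtain ⟨α, hα⟩ := IsAlgClosed.exists_pow_nat_eq (algebraMap F (AlgebraicClosure F) a) (n := 2) (by norm_num)
  obtain ⟨β, hβ⟩ := IsAlgClosed.exists_pow_nat_eq (algebraMap F (AlgebraicClosure F) b) (n := 2) (by norm_num)
  exact ⟨_, ks_fs hr h2 hα hβ⟩

end ks

end Pool.Agent.Q224.FT
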